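import Mathlib

set_option autoImplicit false

open Finset Filter

namespace Pool.Agent.H.Bent

def W (m : ℕ) (f : (Fin m → ZMod 2) → ZMod 2) (y : Fin m → ZMod 2) : ℤ :=
  ∑ x : Fin m → ZMod 2, (-1 : ℤ) ^ (f x + ∑ i, x i * y i).val

theorem sg : ∀ a b : ZMod 2, (-1 : ℤ) ^ (a + b).val = (-1) ^ a.val * (-1) ^ b.val := by decide

theorem ex (k : ℕ) : ∃ f, ∀ y, |W (2 * k) f y| = 2 ^ k := by
  induction k with
  | zero => exact ⟨0, fun y => by simp [W]⟩
  | succ k ih =>
    obtain ⟨f, hf⟩ := ih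
    change ∃ f, ∀ y, |W (2 * k + 1 + 1) f y| = _
    refine ⟨fun x => x 0 * x 1 + f fun i => x i.succ.succ, fun y => ?_⟩
    have : W (2 * k + 1 + 1) (fun x => x 0 * x 1 + f fun i => x i.succ.succ) y =
        (∑ a : ZMod 2, ∑ b : ZMod 2, (-1 : ℤ) ^ (a * b + a * y 0 + b * y 1).val) *
          W (2 * k) f fun i => y i.succ.succ := by
      have e : ∀ (n : ℕ) (g : (Fin (n + 1) → ZMod 2) → ℤ),
          ∑ x, g x = ∑ a : ZMod 2, ∑ x : Fin n → ZMod 2, g (Fin.cons a x) := fun n g => by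
        rw [← (Fin.consEquiv fun _ => ZMod 2).sum_comp, Fintype.sum_prod_type]; rfl
      simp only [W, e, sum_mul]
      simp only [mul_sum, ← sg]
      refine sum_congr rfl fun a _ => sum_congr rfl fun b _ => sum_congr rfl fun x _ => ?_
      congr 2
      simp [Fin.sum_univ_succ]
      ring
    have h2 : ∀ p q : ZMod 2, |∑ a : ZMod 2, ∑ b : ZMod 2, (-1 : ℤ) ^ (a * b + a * p + b * q).val| = 2 := by
      decide
    rw [this, abs_mul, hf, h2, pow_succ']

theorem W_lin (m : ℕ) (f : (Fin m → ZMod 2) → ZMod 2) (a y : Fin m → ZMod 2) :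
    W m (fun x => f x + ∑ i, x i * a i) y = W m f (a + y) := by
  simp [W, mul_add, sum_add_distrib, add_assoc]

theorem W_one (m : ℕ) (f : (Fin m → ZMod 2) → ZMod 2) (y : Fin m → ZMod 2) :
    W m (f + 1) y = -W m f y := by
  simp only [W, ← sum_neg_distrib, Pi.add_apply, Pi.one_apply, add_right_comm _ (1 : ZMod 2)]
  refine sum_congr rfl fun x _ => ?_
  rw [sg _ 1]
  simp [ZMod.val_one]

theorem big (k : ℕ) : 2 * k < {f | ∀ y, |W (2 * k) f y| = 2 ^ k}.ncard := by
  obtain ⟨f, hf⟩ := ex k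
  have := Set.ncard_le_ncard_of_injOn (s := Set.univ) (t := {f | ∀ y, |W (2 * k) f y| = 2 ^ k})
    (fun (a : Fin (2 * k) → ZMod 2) x => f x + ∑ i, x i * a i)
    (fun a _ y => by rw [W_lin, hf]) fun a _ b _ e => funext fun i => by
      simpa [Pi.single_apply] using congrFun e (Pi.single i 1)
  rw [Set.ncard_univ, Nat.card_eq_fintype_card, Fintype.card_fun, ZMod.card, Fintype.card_fin] at this
  exact Nat.lt_two_pow_self.trans_le this

theorem ll {b x : ℝ} (h : 2 < b) (h1 : b ≤ x) (h2 : x ≤ b ^ 4) :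
    Real.logb 2 (Real.logb 2 b) ≤ Real.logb 2 (Real.logb 2 x) ∧
      Real.logb 2 (Real.logb 2 x) ≤ Real.logb 2 (Real.logb 2 b) + 2 := by
  have a := Real.logb_pos one_lt_two (show 1 < b by linarith)
  have c := Real.logb_le_logb_of_le one_lt_two (by linarith) h1
  have d := Real.logb_le_logb_of_le one_lt_two (by linarith) h2
  refine ⟨Real.logb_le_logb_of_le one_lt_two a c,
    (Real.logb_le_logb_of_le one_lt_two (by linarith) d).trans_eq ?_⟩
  rw [Real.logb_pow, Real.logb_mul (by norm_num) a.ne', add_comm,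
    show ((4 : ℕ) : ℝ) = 2 ^ 2 by norm_num, Real.logb_pow]
  simp

theorem lim {b u v : ℕ → ℝ} (hb : Tendsto b atTop atTop) (hu : ∀ k, b k ≤ u k ∧ u k ≤ b k ^ 4)
    (hv : ∀ k, b k ≤ v k ∧ v k ≤ b k ^ 4) :
    Tendsto (fun k => Real.logb 2 (Real.logb 2 (u k)) / Real.logb 2 (Real.logb 2 (v k))) atTop
      (nhds 1) := by
  have t := Real.tendsto_logb_atTop one_lt_two
  have hl := t.comp (t.comp hb)
  have z := (hl.inv_tendsto_atTop).const_mul 2
  refine tendsto_of_tendsto_of_tendsto_of_le_of_le' (by simpa using z.const_sub 1)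
    (by simpa using z.const_add 1) ?_ ?_
  all_goals
    filter_upwards [hb.eventually_gt_atTop 2, hl.eventually_gt_atTop 2] with k h1 h2
    have a := ll h1 (hu k).1 (hu k).2
    have c := ll h1 (hv k).1 (hv k).2
    simp only [Function.comp] at h2
    generalize Real.logb 2 (Real.logb 2 (b k)) = l at *
    generalize Real.logb 2 (Real.logb 2 (u k)) = p at *
    generalize Real.logb 2 (Real.logb 2 (v k)) = q at *
    have l0 : 0 < l := by linarith
    have q0 : 0 < q := by linarith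
    field_simp
    nlinarith

end Pool.Agent.H.Bent
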